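import Pool.Agent.MP_ed9623_an.H77.SpecA

/-! The Laplace average of the observed functional. -/

open MeasureTheory Filter Topology Set
open scoped ContDiff InnerProductSpace

set_option linter.unusedSectionVars false

namespace Pool.Agent.MP_ed9623_an.H77

namespace Lap

section gen

variable {E : Type} [NormedAddCommGroup E] [NormedSpace ℝ E] {f : ℝ → E} {l a M : ℝ}

theorem intExp (hl : 0 < l) (a : ℝ) : IntegrableOn (fun s => Real.exp (-(l * s))) (Ioi a) := by
  simpa only [neg_mul] using exp_neg_integrableOn_Ioi a hl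

theorem intOn (hl : 0 < l) (hf : ContinuousOn f (Ioi a)) (hM : ∀ s, a < s → ‖f s‖ ≤ M) :
    IntegrableOn (fun s => Real.exp (-(l * s)) • f s) (Ioi a) := by
  refine Integrable.mono' ((intExp hl a).mul_const M) ?_ ?_
  · exact ContinuousOn.aestronglyMeasurable (ContinuousOn.smul (by fun_prop) hf) measurableSet_Ioi
  · refine (ae_restrict_iff' measurableSet_Ioi).2 (Eventually.of_forall fun s hs => ?_)
    rw [norm_smul, Real.norm_eq_abs, abs_of_pos (Real.exp_pos _)]
    exact mul_le_mul_of_nonneg_left (hM s hs) (Real.exp_pos _).le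

theorem normLe (hl : 1 ≤ l) (hM : ∀ s, 0 < s → ‖f s‖ ≤ M) :
    ‖∫ s in Ioi (0 : ℝ), Real.exp (-(l * s)) • f s‖ ≤ M := by
  have hM0 : 0 ≤ M := (norm_nonneg _).trans (hM 1 one_pos)
  have h1 : ∫ s in Ioi (0 : ℝ), Real.exp (-s) * M = M := by
    rw [integral_mul_const, integral_exp_neg_Ioi_zero, one_mul]
  rw [← h1]
  refine norm_integral_le_of_norm_le ?_ ?_
  · simpa using (intExp one_pos 0).mul_const M
  · refine (ae_restrict_iff' measurableSet_Ioi).2 (Eventually.of_forall fun s hs => ?_)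
    rw [norm_smul, Real.norm_eq_abs, abs_of_pos (Real.exp_pos _)]
    have hs' : 0 < s := hs
    exact mul_le_mul (Real.exp_le_exp.2 (by nlinarith)) (hM s hs) (norm_nonneg _)
      (Real.exp_pos _).le

/-- Uniqueness for the averages. -/
theorem uniq [CompleteSpace E] (hl : 0 < l) (hf : Continuous f) (hM : ∀ s, ‖f s‖ ≤ M)
    (h : ∀ τ, ∫ s in Ioi (0 : ℝ), Real.exp (-(l * s)) • f (τ + s) = 0) (t : ℝ) : f t = 0 := by
  have h1 : ∀ τ, ∫ x in Ioi τ, Real.exp (-(l * x)) • f x = 0 := fun τ => by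
    rw [← (measurePreserving_add_left volume τ).setIntegral_preimage_emb
      (measurableEmbedding_addLeft τ)]
    have e : (fun x => τ + x) ⁻¹' Ioi τ = Ioi 0 := by
      ext x
      simp
    have e2 : ∀ x, Real.exp (-(l * (τ + x))) • f (τ + x) =
        Real.exp (-(l * τ)) • Real.exp (-(l * x)) • f (τ + x) := fun x => by
      rw [smul_smul, ← Real.exp_add]
      congr 2
      ring
    rw [e]
    simp only [e2]
    rw [integral_smul, h, smul_zero]
  have hc : Continuous fun x => Real.exp (-(l * x)) • f x := by fun_prop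
  have h2 : (fun b => ∫ x in (0 : ℝ)..b, Real.exp (-(l * x)) • f x) = fun _ => 0 := by
    funext b
    rw [← intervalIntegral.integral_Ioi_sub_Ioi' (intOn hl hf.continuousOn fun s _ => hM s)
      (intOn hl hf.continuousOn fun s _ => hM s), h1, h1, sub_zero]
  have h3 := (hc.integral_hasStrictDerivAt 0 t).hasDerivAt
  rw [h2] at h3
  have h4 := h3.unique (hasDerivAt_const t (0 : E))
  exact (smul_eq_zero.1 h4).resolve_left (Real.exp_pos _).ne'

/-- A first moment from a second moment. -/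
theorem first {d : ℝ → ℝ} {K w c : ℝ} (hK : 0 ≤ K) (hc : 0 < c) (hw : 0 ≤ w)
    (hd : ContinuousOn d (Ici 0)) (hM : ∀ s, 0 < s → ‖d s‖ ≤ M)
    (h : ∀ t, 0 ≤ t → c * ∫ r in (0 : ℝ)..t, Real.exp (-(K * r)) * d r ^ 2 ≤ w ^ 2) :
    ∫ s in Ioi (0 : ℝ), Real.exp (-((K + 1) * s)) • d s ≤ (1 + c⁻¹) * w := by
  have key : ∀ μ : ℝ, 0 < μ →
      ∫ s in Ioi (0 : ℝ), Real.exp (-((K + 1) * s)) • d s ≤ μ + μ⁻¹ * (c⁻¹ * w ^ 2) := by
    intro μ hμ
    refine le_of_tendsto (intervalIntegral_tendsto_integral_Ioi 0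
      (intOn (by linarith) (hd.mono Ioi_subset_Ici_self) hM) tendsto_id) ?_
    filter_upwards [eventually_ge_atTop 0] with t ht
    have hd' : ContinuousOn d (uIcc 0 t) := hd.mono (by rw [uIcc_of_le ht]; exact Icc_subset_Ici_self)
    have i1 : IntervalIntegrable (fun s => μ * Real.exp (-s)) volume 0 t :=
      Continuous.intervalIntegrable (by fun_prop) _ _
    have i2 : IntervalIntegrable (fun s => μ⁻¹ * (Real.exp (-(K * s)) * d s ^ 2)) volume 0 t :=
      ContinuousOn.intervalIntegrable (ContinuousOn.mul continuousOn_const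
        (ContinuousOn.mul (by fun_prop) (hd'.pow 2)))
    have e1 : ∫ s in (0 : ℝ)..t, Real.exp (-s) ≤ 1 := by
      rw [intervalIntegral.integral_comp_neg fun s => Real.exp s, integral_exp]
      simp only [neg_zero, Real.exp_zero]
      linarith [Real.exp_pos (-t)]
    have e2 : ∫ r in (0 : ℝ)..t, Real.exp (-(K * r)) * d r ^ 2 ≤ c⁻¹ * w ^ 2 := by
      rw [le_inv_mul_iff₀ hc]
      exact h t ht
    calc ∫ s in (0 : ℝ)..id t, Real.exp (-((K + 1) * s)) • d s
        ≤ ∫ s in (0 : ℝ)..t, (μ * Real.exp (-s) + μ⁻¹ * (Real.exp (-(K * s)) * d s ^ 2)) := by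
          refine intervalIntegral.integral_mono_on ht
            (ContinuousOn.intervalIntegrable (ContinuousOn.smul
              (f := fun s => Real.exp (-((K + 1) * s))) (by fun_prop) hd')) (i1.add i2)
            fun s hs => ?_
          have e : Real.exp (-((K + 1) * s)) = Real.exp (-s) * Real.exp (-(K * s)) := by
            rw [← Real.exp_add]
            congr 1
            ring
          have a0 := Real.exp_pos (-s)
          have a1 : Real.exp (-s) ≤ 1 := Real.exp_le_one_iff.2 (by linarith [hs.1])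
          have b0 := Real.exp_pos (-(K * s))
          have b1 : Real.exp (-(K * s)) ≤ 1 := Real.exp_le_one_iff.2 (by nlinarith [hs.1])
          rw [e, smul_eq_mul]
          generalize Real.exp (-s) = x at *
          generalize Real.exp (-(K * s)) = y at *
          have y1 : d s ≤ μ + μ⁻¹ * d s ^ 2 := by
            rw [← mul_le_mul_iff_right₀ hμ, mul_add, mul_inv_cancel_left₀ hμ.ne']
            nlinarith [sq_nonneg (μ - d s), sq_nonneg (d s)]
          have y2 : 0 ≤ μ⁻¹ * d s ^ 2 := by positivity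
          have y3 : x * y * d s ≤ x * y * (μ + μ⁻¹ * d s ^ 2) :=
            mul_le_mul_of_nonneg_left y1 (by positivity)
          have y4 : x * y * μ ≤ μ * x := by nlinarith [mul_pos a0 hμ]
          have y5 : x * y * (μ⁻¹ * d s ^ 2) ≤ μ⁻¹ * (y * d s ^ 2) := by
            nlinarith [mul_nonneg b0.le y2]
          linarith [mul_add (x * y) μ (μ⁻¹ * d s ^ 2)]
      _ ≤ μ + μ⁻¹ * (c⁻¹ * w ^ 2) := by
          rw [intervalIntegral.integral_add i1 i2, intervalIntegral.integral_const_mul,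
            intervalIntegral.integral_const_mul]
          have := mul_le_mul_of_nonneg_left e1 hμ.le
          have := mul_le_mul_of_nonneg_left e2 (inv_pos.2 hμ).le
          linarith
  rcases hw.eq_or_lt with rfl | hw
  · rw [mul_zero]
    exact le_of_forall_pos_le_add fun μ hμ => by simpa using key μ hμ
  · refine (key w hw).trans (le_of_eq ?_)
    field_simp

end gen

variable {H V Y : Type} [NormedAddCommGroup H] [InnerProductSpace ℝ H] [CompleteSpace H]
  [NormedAddCommGroup V] [InnerProductSpace ℝ V] [CompleteSpace V]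
  [NormedAddCommGroup Y] [InnerProductSpace ℝ Y] [CompleteSpace Y]
  {S : St H V} (D : Pd H V Y) {R : ℝ} {I : Set ℝ} {U W : ℝ → V}

theorem cont_obs (h : Bd S R I U) (hI : IsOpen I) : ContinuousOn (obs S D U) I := by
  have c := h.1.1.continuousOn
  have c' := h.1.cont_deriv hI
  exact ((continuousOn_const.sub (D.A.continuous.comp_continuousOn c)).sub
    ((D.B.continuous.comp_continuousOn c).clm_apply c)).sub
    (D.J.continuous.comp_continuousOn (S.ι.continuous.comp_continuousOn c'))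

theorem bd_obs (R : ℝ) : ∃ M, ∀ (I : Set ℝ) (U : ℝ → V), Bd S R I U → ∀ t ∈ I,
    ‖obs S D U t‖ ≤ M := by
  refine ⟨‖D.γ‖ + ‖D.A‖ * R + ‖D.B‖ * R * R + ‖D.J‖ * R, fun I U h t ht => ?_⟩
  obtain ⟨h1, h2⟩ := h.2 t ht
  have hR : 0 ≤ R := (norm_nonneg _).trans h1
  refine (norm_sub_le _ _).trans (add_le_add ((norm_sub_le _ _).trans
    (add_le_add ((norm_sub_le _ _).trans (add_le_add le_rfl ?_)) ?_)) ?_)
  · exact D.A.le_opNorm_of_le h1
  · exact (D.B.le_opNorm₂ _ _).trans (by gcongr)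
  · exact D.J.le_opNorm_of_le h2

theorem int_obs {l T τ : ℝ} (hl : 0 < l) (h : Bd S R (Ioi T) U) (hτ : T < τ) :
    IntegrableOn (fun s => Real.exp (-(l * s)) • obs S D U (τ + s)) (Ioi 0) := by
  obtain ⟨M, hM⟩ := bd_obs (S := S) D R
  have hm : ∀ s : ℝ, 0 < s → τ + s ∈ Ioi T := fun s hs => by
    simp only [mem_Ioi]
    linarith
  exact intOn hl ((cont_obs D h isOpen_Ioi).comp (by fun_prop) hm) fun s hs => hM _ _ h _ (hm s hs)

theorem lap_sub {l T τ : ℝ} (hl : 0 < l) (h : Bd S R (Ioi T) U) (h' : Bd S R (Ioi T) W)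
    (hτ : T < τ) : lap S D l U τ - lap S D l W τ =
      ∫ s in Ioi (0 : ℝ), Real.exp (-(l * s)) • (obs S D U (τ + s) - obs S D W (τ + s)) := by
  simp only [smul_sub]
  rw [integral_sub (int_obs D hl h hτ) (int_obs D hl h' hτ)]
  rfl

theorem core {K a : ℝ} (hK : 0 ≤ K) (ha : a < 0) (h : Bd S R (Ioi a) U) (h' : Bd S R (Ioi a) W)
    (hF : ∀ t, 0 ≤ t → S.c * ∫ r in (0 : ℝ)..t, Real.exp (-(K * r)) * ‖U r - W r‖ ^ 2 ≤
      ‖S.ι (U 0 - W 0)‖ ^ 2) :
    ‖lap S D (K + 1) U 0 - lap S D (K + 1) W 0‖ ≤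
      ((‖D.A‖ + 2 * ‖D.B‖ * |R| + (K + 1) * (‖D.J‖ * ‖S.ι‖)) * (1 + S.c⁻¹) + ‖D.J‖) *
        ‖S.ι (U 0 - W 0)‖ := by
  have hl : 0 < K + 1 := by linarith
  have hm : ∀ s : ℝ, 0 ≤ s → s ∈ Ioi a := fun s hs => ha.trans_le hs
  have hR : 0 ≤ R := (norm_nonneg _).trans (h.2 0 (hm 0 le_rfl)).1
  rw [abs_of_nonneg hR]
  set L := ‖D.A‖ + 2 * ‖D.B‖ * R + (K + 1) * (‖D.J‖ * ‖S.ι‖) with hL
  have hL0 : 0 ≤ L := by positivity
  have cU : ContinuousOn U (Ici 0) := h.1.1.continuousOn.mono hm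
  have cW : ContinuousOn W (Ici 0) := h'.1.1.continuousOn.mono hm
  have hd : ∀ s, 0 ≤ s → ‖U s - W s‖ ≤ 2 * R := fun s hs => by
    linarith [norm_sub_le (U s) (W s), (h.2 s (hm s hs)).1, (h'.2 s (hm s hs)).1]
  let p : ℝ → Y := fun s => D.A (U s - W s) + (D.B (U s - W s) (U s) + D.B (W s) (U s - W s)) +
    (K + 1) • D.J (S.ι (U s - W s))
  have hp : ∀ s, 0 ≤ s → ‖p s‖ ≤ L * ‖U s - W s‖ := fun s hs => by
    have h1 := (h.2 s (hm s hs)).1
    have h2 := (h'.2 s (hm s hs)).1
    have e1 := D.A.le_opNorm (U s - W s)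
    have e2 : ‖D.B (U s - W s) (U s)‖ ≤ ‖D.B‖ * ‖U s - W s‖ * R :=
      (D.B.le_opNorm₂ _ _).trans (by gcongr)
    have e3 : ‖D.B (W s) (U s - W s)‖ ≤ ‖D.B‖ * R * ‖U s - W s‖ :=
      (D.B.le_opNorm₂ _ _).trans (by gcongr)
    have e4 : ‖(K + 1) • D.J (S.ι (U s - W s))‖ ≤ (K + 1) * (‖D.J‖ * (‖S.ι‖ * ‖U s - W s‖)) := by
      rw [norm_smul, Real.norm_eq_abs, abs_of_pos hl]
      exact mul_le_mul_of_nonneg_left (D.J.le_opNorm_of_le (S.ι.le_opNorm _)) hl.le
    refine (norm_add₃_le.trans (add_le_add (add_le_add e1 ((norm_add_le _ _).trans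
      (add_le_add e2 e3))) e4)).trans (le_of_eq ?_)
    rw [hL]
    ring
  have cp : ContinuousOn p (Ici 0) :=
    ((D.A.continuous.comp_continuousOn (cU.sub cW)).add
      (((D.B.continuous.comp_continuousOn (cU.sub cW)).clm_apply cU).add
        ((D.B.continuous.comp_continuousOn cW).clm_apply (cU.sub cW)))).add
      ((D.J.continuous.comp_continuousOn (S.ι.continuous.comp_continuousOn (cU.sub cW))).const_smul _)
  have ip : IntegrableOn (fun s => Real.exp (-((K + 1) * s)) • p s) (Ioi 0) :=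
    intOn hl (cp.mono Ioi_subset_Ici_self) (M := L * (2 * R)) fun s hs =>
      (hp s hs.le).trans (mul_le_mul_of_nonneg_left (hd s hs.le) hL0)
  have io : IntegrableOn (fun s => Real.exp (-((K + 1) * s)) •
      (obs S D U (0 + s) - obs S D W (0 + s))) (Ioi 0) := by
    simp only [smul_sub]
    exact (int_obs D hl h ha).sub (int_obs D hl h' ha)
  have hg : ∀ s ∈ Ici (0 : ℝ), HasDerivAt
      (fun s => -(Real.exp (-((K + 1) * s)) • D.J (S.ι (U s - W s))))
      (Real.exp (-((K + 1) * s)) • (obs S D U (0 + s) - obs S D W (0 + s)) +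
        Real.exp (-((K + 1) * s)) • p s) s := fun s hs => by
    have d1 : HasDerivAt (fun s => Real.exp (-((K + 1) * s)))
        (Real.exp (-((K + 1) * s)) * -(K + 1)) s := by
      simpa using (((hasDerivAt_id s).const_mul (K + 1)).neg).exp
    have d2 := D.J.hasFDerivAt.comp_hasDerivAt s (S.ι.hasFDerivAt.comp_hasDerivAt s
      ((h.1.hasDerivAt isOpen_Ioi (hm s hs)).sub (h'.1.hasDerivAt isOpen_Ioi (hm s hs))))
    refine HasDerivAt.congr_deriv (d1.smul d2).neg ?_
    simp only [zero_add, obs, p, map_sub, sub_apply, Function.comp, Pi.sub_apply]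
    module
  have ht : Tendsto (fun s => -(Real.exp (-((K + 1) * s)) • D.J (S.ι (U s - W s)))) atTop
      (𝓝 0) := by
    rw [← neg_zero]
    refine Tendsto.neg ?_
    refine NormedField.tendsto_zero_smul_of_tendsto_zero_of_bounded
      (Real.tendsto_exp_neg_atTop_nhds_zero.comp (tendsto_id.const_mul_atTop hl)) ?_
    refine isBoundedUnder_of_eventually_le (a := ‖D.J‖ * (‖S.ι‖ * (2 * R))) ?_
    filter_upwards [eventually_ge_atTop 0] with s hs
    exact D.J.le_opNorm_of_le (S.ι.le_opNorm_of_le (hd s hs))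
  have e := integral_Ioi_of_hasDerivAt_of_tendsto' hg (io.add ip) ht
  rw [integral_add io ip, ← lap_sub D hl h h' ha] at e
  simp only [mul_zero, neg_zero, Real.exp_zero, one_smul, sub_neg_eq_add, zero_add] at e
  rw [eq_sub_of_add_eq e]
  have b1 : ‖D.J (S.ι (U 0 - W 0))‖ ≤ ‖D.J‖ * ‖S.ι (U 0 - W 0)‖ := D.J.le_opNorm _
  have cn : ContinuousOn (fun s => ‖U s - W s‖) (Ici 0) := (cU.sub cW).norm
  have hn : ∀ s, 0 < s → ‖‖U s - W s‖‖ ≤ 2 * R := fun s hs => by
    rw [norm_norm]
    exact hd s hs.le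
  have b2 : ‖∫ s in Ioi (0 : ℝ), Real.exp (-((K + 1) * s)) • p s‖ ≤
      L * ∫ s in Ioi (0 : ℝ), Real.exp (-((K + 1) * s)) • ‖U s - W s‖ := by
    rw [← integral_const_mul]
    refine norm_integral_le_of_norm_le
      ((intOn hl (cn.mono Ioi_subset_Ici_self) hn).const_mul L) ?_
    refine (ae_restrict_iff' measurableSet_Ioi).2 (Eventually.of_forall fun s hs => ?_)
    rw [norm_smul, Real.norm_eq_abs, abs_of_pos (Real.exp_pos _), smul_eq_mul, mul_left_comm]
    exact mul_le_mul_of_nonneg_left (hp s (le_of_lt hs)) (Real.exp_pos _).le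
  have b3 := mul_le_mul_of_nonneg_left (first hK S.c0 (norm_nonneg _) cn hn hF) hL0
  refine (norm_sub_le _ _).trans ?_
  linarith

end Lap

open Lap in
theorem rowLap : OfLap := by
  intro hF H V Y _ _ _ _ _ _ _ _ _ S D R
  obtain ⟨K, hK, hF⟩ := hF S R
  have hl : 0 < K + 1 := by linarith
  have hc := S.c0
  refine ⟨K + 1, (‖D.A‖ + 2 * ‖D.B‖ * |R| + (K + 1) * (‖D.J‖ * ‖S.ι‖)) * (1 + S.c⁻¹) + ‖D.J‖,
    by positivity, fun U W T T' τ τ' h h' hτ hτ' => ?_, fun N Λ U W T h h' hΛ => ?_,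
    fun U W h h' he t => ?_⟩
  · have ha : max (T - τ) (T' - τ') < 0 := max_lt (by linarith) (by linarith)
    have h1 : Bd S R (Ioi (max (T - τ) (T' - τ'))) fun t => U (t + τ) :=
      (h.shift τ).mono fun t ht =>
        show T < t + τ from sub_lt_iff_lt_add.1 ((le_max_left _ _).trans_lt ht)
    have h2 : Bd S R (Ioi (max (T - τ) (T' - τ'))) fun t => W (t + τ') :=
      (h'.shift τ').mono fun t ht =>
        show T' < t + τ' from sub_lt_iff_lt_add.1 ((le_max_right _ _).trans_lt ht)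
    have := core D hK ha h1 h2 fun t ht => by
      have h3 := hF (itv_Ioi _) h1 h2 0 ha t (ha.trans_le ht) ht
      simp only [sub_zero] at h3
      exact le_trans (le_add_of_nonneg_left (by positivity)) h3
    simpa only [lap_shift, zero_add] using this
  · rw [NormedAddGroup.tendsto_nhds_zero] at hΛ ⊢
    intro ε hε
    obtain ⟨X, hX⟩ := eventually_atTop.1 (hΛ (ε / 2) (half_pos hε))
    filter_upwards [eventually_ge_atTop X, eventually_gt_atTop T] with t ht ht'
    have io : IntegrableOn (fun s => Real.exp (-((K + 1) * s)) •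
        (obs S D U (t + s) - obs S D W (t + s))) (Ioi 0) := by
      simp only [smul_sub]
      exact (int_obs D hl h ht').sub (int_obs D hl h' ht')
    rw [lap_sub D hl h h' ht', ← Λ.integral_comp_comm io]
    simp only [map_smul]
    exact (normLe (by linarith) fun s hs => (hX (t + s) (by linarith)).le).trans_lt
      (half_lt_self hε)
  · obtain ⟨M, hM⟩ := bd_obs (S := S) D R
    refine sub_eq_zero.1 (uniq (f := fun t => obs S D U t - obs S D W t) (M := M + M) hl
      ((continuousOn_univ.1 (cont_obs D h isOpen_univ)).sub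
        (continuousOn_univ.1 (cont_obs D h' isOpen_univ)))
      (fun s => (norm_sub_le _ _).trans (add_le_add (hM _ _ h s trivial) (hM _ _ h' s trivial)))
      (fun τ => ?_) t)
    rw [← lap_sub D hl (h.mono (subset_univ (Ioi (τ - 1)))) (h'.mono (subset_univ _))
      (by linarith), he, sub_self]

end Pool.Agent.MP_ed9623_an.H77
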